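import Mathlib
import Pool.Prelude.Def_F_c31e40fa
import Pool.Agent.TH279.MD.Final
import Pool.Agent.H713R2.AR.PR
import Pool.Agent.H701R2.FolF
import Pool.Agent.Helper202.Univ

/-!
# The exterior map of the Multibrot set near a Misiurewicz parameter
-/

set_option autoImplicit false

open Set Filter Metric MeasureTheory

namespace Pool.Agent.H107.MLC

open Pool.Agent.H713R2 Pool.Agent.H712R2 Pool.Agent.H713R2.AR Pool.Agent.TH279.MD
open Pool.Agent.TH574.J2489 (sqrt_level)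
open Pool.Agent.TH574.J2491 (big_deriv)
open N62a1eb23 (multibrotSet)

theorem isOpen_ext : IsOpen {z : ℂ | 1 < ‖z‖} := isOpen_lt continuous_const continuous_norm

theorem P_psi_le' {d : ℕ} (hd : 2 ≤ d) {ψ : ℂ → ℂ} (hψ : IsExteriorMap (multibrotSet d) ψ) (n : ℕ)
    {z : ℂ} (hz : 1 < ‖z‖) : ‖P d (n + 1) (ψ z)‖ ≤ 2 * ‖z‖ ^ (d ^ n) := by
  obtain ⟨β, hβ⟩ := exists_beta hd
  rw [exteriorMap_unique hβ hψ hz]
  exact P_psi_le hd hβ n hz

theorem norm_psi_le {d : ℕ} (hd : 2 ≤ d) {ψ : ℂ → ℂ} (hψ : IsExteriorMap (multibrotSet d) ψ)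
    {z : ℂ} (hz : 1 < ‖z‖) : ‖ψ z‖ ≤ 2 * ‖z‖ := by
  have h := P_psi_le' hd hψ 0 hz
  rwa [zero_add, P_one hd, pow_zero, pow_one] at h

theorem disc_mem {w : ℂ} (hw : 1 < ‖w‖) : ∀ t ∈ ball (0 : ℂ) 1,
    1 < ‖w + ((‖w‖ - 1 : ℝ) : ℂ) * t‖ ∧ ‖w + ((‖w‖ - 1 : ℝ) : ℂ) * t‖ ≤ 2 * ‖w‖ - 1 := by
  intro t ht
  set ρ : ℝ := ‖w‖ - 1 with hρ
  have hρ0 : 0 < ρ := by rw [hρ]; linarith
  rw [mem_ball_zero_iff] at ht
  have h1 : ‖(ρ : ℂ) * t‖ < ρ := by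
    rw [norm_mul, Complex.norm_real, Real.norm_eq_abs, abs_of_pos hρ0]
    nlinarith
  constructor
  · have h2 := norm_sub_le (w + ρ * t) (ρ * t)
    rw [add_sub_cancel_right] at h2
    rw [hρ] at h1
    linarith
  · have h2 := norm_add_le w ((ρ : ℂ) * t)
    rw [hρ] at h1 h2 ⊢
    linarith

/-- Discs in the exterior of the Multibrot set. -/
theorem ext_disc {d : ℕ} (hd : 2 ≤ d) {ψ : ℂ → ℂ} (hψ : IsExteriorMap (multibrotSet d) ψ)
    {w : ℂ} (hw : 1 < ‖w‖) (i j : ℕ) (hi : 1 ≤ i)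
    (hsmall : (2 * ‖w‖ - 1) ^ (d ^ (i + j)) ≤ 3 / 2) :
    (‖w‖ - 1) * ‖deriv ψ w‖ * ‖deriv (P d i) (ψ w)‖ ≤ 2 / Real.pi *
      (volume {u : ℂ | u ^ 2 + P d i (ψ w) ∈ SL d (ψ w) 4 (j + 1)}).toReal := by
  have hmem := disc_mem hw
  set ρ : ℝ := ‖w‖ - 1 with hρ
  have hρ0 : 0 < ρ := by rw [hρ]; linarith
  set γ : ℂ → ℂ := fun t => ψ (w + ρ * t) with hγ
  have hγd : DifferentiableOn ℂ γ (ball 0 1) := by
    apply hψ.diff.comp (by fun_prop)
    intro t ht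
    exact (hmem t ht).1
  have hγ0 : γ 0 = ψ w := by simp [hγ]
  have h3 : HasDerivAt ψ (deriv ψ w) (w + ρ * 0) := by
    rw [mul_zero, add_zero]
    exact (hψ.diff.differentiableAt (isOpen_ext.mem_nhds hw)).hasDerivAt
  have h4 : HasDerivAt (fun t : ℂ => w + (ρ : ℂ) * t) ρ 0 := by
    simpa using ((hasDerivAt_id (0 : ℂ)).const_mul (ρ : ℂ)).const_add w
  have h5 : HasDerivAt γ (deriv ψ w * ρ) 0 := h3.comp (0 : ℂ) h4
  have hB : ∀ t ∈ ball (0 : ℂ) 1, BdJ d 3 (i + j + 1) (γ t) := by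
    intro t ht m hm1 hm2
    obtain ⟨n, rfl⟩ : ∃ n, m = n + 1 := ⟨m - 1, by omega⟩
    obtain ⟨h1, h2⟩ := hmem t ht
    have h6 := P_psi_le' hd hψ n h1
    have h7 : ‖w + (ρ : ℂ) * t‖ ^ (d ^ n) ≤ 3 / 2 := by
      calc ‖w + (ρ : ℂ) * t‖ ^ (d ^ n) ≤ ‖w + (ρ : ℂ) * t‖ ^ (d ^ (i + j)) :=
            pow_le_pow_right₀ h1.le (Nat.pow_le_pow_right (by omega) (by omega))
        _ ≤ (2 * ‖w‖ - 1) ^ (d ^ (i + j)) := pow_le_pow_left₀ (norm_nonneg _) h2 _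
        _ ≤ 3 / 2 := hsmall
    have h8 : ‖P d (n + 1) (γ t)‖ ≤ 2 * ‖w + (ρ : ℂ) * t‖ ^ (d ^ n) := h6
    linarith
  have h1 := sqrt_level hd (M := 3) (M' := 4) (by norm_num) (by norm_num) (by norm_num) hγd i j hi hB
  rw [hγ0] at h1
  have h6 : HasDerivAt (P d i) (deriv (P d i) (ψ w)) (γ 0) := by
    rw [hγ0]
    exact (differentiable_P d i _).hasDerivAt
  have h7 : deriv (fun t => P d i (γ t)) 0 = deriv (P d i) (ψ w) * (deriv ψ w * ρ) :=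
    (h6.comp (0 : ℂ) h5).deriv
  rw [h7, norm_mul, norm_mul, Complex.norm_real, Real.norm_eq_abs, abs_of_pos hρ0] at h1
  rw [EM_eq] at h1
  calc ρ * ‖deriv ψ w‖ * ‖deriv (P d i) (ψ w)‖ = ‖deriv (P d i) (ψ w)‖ * (‖deriv ψ w‖ * ρ) := by
        ring
    _ ≤ _ := h1

/-- The Cauchy estimate. -/
theorem ext_cauchy {d : ℕ} (hd : 2 ≤ d) {ψ : ℂ → ℂ} (hψ : IsExteriorMap (multibrotSet d) ψ)
    {w : ℂ} (hw : 1 < ‖w‖) (hw2 : ‖w‖ ≤ 2) : (‖w‖ - 1) * ‖deriv ψ w‖ ≤ 12 := by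
  have hmem := disc_mem hw
  set ρ : ℝ := ‖w‖ - 1 with hρ
  have hρ0 : 0 < ρ := by rw [hρ]; linarith
  have h1 : ‖deriv ψ w‖ ≤ 6 / (ρ / 2) := by
    have hin : ∀ z ∈ closedBall w (ρ / 2), 1 < ‖z‖ ∧ ‖z‖ ≤ 3 := by
      intro z hz
      rw [mem_closedBall, dist_eq_norm] at hz
      have h2 : ‖w‖ ≤ ‖z‖ + ‖z - w‖ := by
        calc ‖w‖ = ‖z - (z - w)‖ := by congr 1; ring
          _ ≤ _ := norm_sub_le _ _
      have h3 : ‖z‖ ≤ ‖w‖ + ‖z - w‖ := by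
        calc ‖z‖ = ‖w + (z - w)‖ := by congr 1; ring
          _ ≤ _ := norm_add_le _ _
      constructor <;> rw [hρ] at hz <;> linarith
    apply Complex.norm_deriv_le_of_forall_mem_sphere_norm_le (by positivity)
    · apply DifferentiableOn.diffContOnCl
      rw [closure_ball _ (by positivity)]
      exact hψ.diff.mono fun z hz => (hin z hz).1
    · intro z hz
      obtain ⟨h2, h3⟩ := hin z (sphere_subset_closedBall hz)
      have := norm_psi_le hd hψ h2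
      linarith
  rw [le_div_iff₀ (by positivity)] at h1
  linarith

/-- The distance to the Multibrot set. -/
theorem ext_dist {d : ℕ} (hd : 2 ≤ d) {ψ : ℂ → ℂ} (hψ : IsExteriorMap (multibrotSet d) ψ)
    {w : ℂ} (hw : 1 < ‖w‖) (hw2 : ‖w‖ ≤ 2) :
    infDist (ψ w) (multibrotSet d) ≤ 4 * ((‖w‖ - 1) * ‖deriv ψ w‖) := by
  set R : ℝ := infDist (ψ w) (multibrotSet d) with hR
  have hR0 : 0 ≤ R := infDist_nonneg
  rcases hR0.eq_or_lt with h0 | h0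
  · rw [← h0]
    have : 0 ≤ ‖w‖ - 1 := by linarith
    positivity
  have hsub : ∀ z ∈ ball (ψ w) R, z ∈ ψ '' {z | 1 < ‖z‖} := by
    intro z hz
    rw [hψ.image]
    intro hzM
    rw [mem_ball, dist_comm] at hz
    exact absurd (infDist_le_dist_of_mem hzM) (not_le.mpr hz)
  set g := Function.invFunOn ψ {z | 1 < ‖z‖} with hg
  have hgd : ∀ z ∈ ball (ψ w) R, DifferentiableAt ℂ g z := fun z hz =>
    Pool.Agent.Helper202.Univ.differentiableAt_inv isOpen_ext hψ.diff hψ.inj (hsub z hz)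
  have hgm : ∀ z ∈ ball (ψ w) R, 1 < ‖g z‖ := fun z hz =>
    Function.invFunOn_mem (hsub z hz)
  have hgw : g (ψ w) = w := Pool.Agent.Helper202.Univ.invFunOn_left hψ.inj hw
  have hmap : ∀ t ∈ ball (0 : ℂ) R, ψ w + t ∈ ball (ψ w) R := by
    intro t ht
    rw [mem_ball_zero_iff] at ht
    rwa [mem_ball_iff_norm, add_sub_cancel_left]
  have h1 := Pool.Agent.H701R2.Fol.deriv_le_log (f := fun t => g (ψ w + t)) h0 (by
    intro t ht
    apply DifferentiableAt.differentiableWithinAt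
    exact (hgd _ (hmap t ht)).comp t (by fun_prop)) (fun t ht => hgm _ (hmap t ht))
  have h2 : HasDerivAt g (deriv ψ w)⁻¹ (ψ w + 0) := by
    rw [add_zero]
    exact Pool.Agent.Helper202.Univ.hasDerivAt_inv isOpen_ext hψ.diff hψ.inj hw
  have h3 : HasDerivAt (fun t : ℂ => ψ w + t) 1 0 := (hasDerivAt_id (0 : ℂ)).const_add _
  have h4 : deriv (fun t => g (ψ w + t)) 0 = (deriv ψ w)⁻¹ := by
    have := (h2.comp (0 : ℂ) h3).deriv
    rw [mul_one] at this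
    exact this
  simp only [add_zero, hgw] at h1
  rw [h4, norm_inv] at h1
  have hne : 0 < ‖deriv ψ w‖ :=
    norm_pos_iff.mpr (Pool.Agent.Helper202.Univ.deriv_ne_zero isOpen_ext hψ.diff hψ.inj hw)
  have hlog : Real.log ‖w‖ ≤ ‖w‖ - 1 := Real.log_le_sub_one_of_pos (by linarith)
  have h5 : 2 / R * (‖w‖ * Real.log ‖w‖) ≤ 4 * (‖w‖ - 1) / R := by
    have h6 : ‖w‖ * Real.log ‖w‖ ≤ 2 * (‖w‖ - 1) := by
      have : 0 ≤ Real.log ‖w‖ := Real.log_nonneg hw.le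
      nlinarith
    calc 2 / R * (‖w‖ * Real.log ‖w‖) ≤ 2 / R * (2 * (‖w‖ - 1)) := by gcongr
      _ = _ := by ring
  have h6 := h1.trans h5
  rw [inv_le_iff_one_le_mul₀ hne, div_mul_eq_mul_div, le_div_iff₀ h0] at h6
  linarith

theorem exp_small : Real.exp (2 * Real.exp (-2)) ≤ 3 / 2 := by
  have h1 : Real.exp (-2) ≤ 1 / 7 := by
    rw [Real.exp_neg, one_div]
    apply inv_anti₀ (by norm_num)
    have h2 : (2.7 : ℝ) < Real.exp 1 := by
      have := Real.exp_one_gt_d9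
      linarith
    have h3 : Real.exp 2 = Real.exp 1 * Real.exp 1 := by rw [← Real.exp_add]; norm_num
    rw [h3]
    nlinarith
  have h2 : Real.exp (2 * Real.exp (-2)) ≤ Real.exp (2 / 7) := Real.exp_le_exp.mpr (by linarith)
  have h3 : (5 / 7 : ℝ) ≤ Real.exp (-(2 / 7)) := by
    have := Real.add_one_le_exp (-(2 / 7) : ℝ)
    linarith
  rw [Real.exp_neg] at h3
  have h4 : 0 < Real.exp (2 / 7) := Real.exp_pos _
  have h5 : Real.exp (2 / 7) ≤ 7 / 5 := by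
    have h6 : (5 / 7 : ℝ) * Real.exp (2 / 7) ≤ 1 := by
      calc (5 / 7 : ℝ) * Real.exp (2 / 7) ≤ (Real.exp (2 / 7))⁻¹ * Real.exp (2 / 7) := by gcongr
        _ = 1 := inv_mul_cancel₀ h4.ne'
    linarith
  linarith

/-- **The derivative of the exterior map near a Misiurewicz parameter.** -/
theorem main_near {d : ℕ} (hd : 2 ≤ d) {c₀ : ℂ}
    (hpp : ∃ m n : ℕ, 1 ≤ n ∧ (f d c₀)^[m + n] 0 = (f d c₀)^[m] 0)
    (hnp : ∀ p : ℕ, 1 ≤ p → (f d c₀)^[p] 0 ≠ 0) :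
    ∃ C : ℝ, 1 ≤ C ∧ ∀ ψ : ℂ → ℂ, IsExteriorMap (multibrotSet d) ψ → ∀ w : ℂ, 1 < ‖w‖ →
      ‖w‖ - 1 ≤ Real.exp (-(C * (1 + |Real.log ‖ψ w - c₀‖|) ^ 2)) →
      (‖w‖ - 1) * ‖deriv ψ w‖ ≤ C * ‖ψ w - c₀‖ ^ ((d : ℝ) / ((d : ℝ) - 1)) := by
  have hdR : (2 : ℝ) ≤ d := by exact_mod_cast hd
  obtain ⟨L, k, ω, horb⟩ := orb_of_preper hd hpp hnp
  have hc₀M : c₀ ∈ multibrotSet d := mem_M_of_preper hpp
  have hc₀ : ‖c₀‖ ≤ 2 := norm_le_two hd hc₀M
  have hrep := repelling hd horb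
  obtain ⟨ρ₁, C₃, vf, hρ₁, hC₃, hvf, hvf0, hcontin⟩ := cont hd horb hrep
  obtain ⟨mo, κo, εo, hκo, hεo, hεoρ, hord⟩ := nonzero_order hd hρ₁ hvf hvf0
    (fun c hc => (hcontin c hc).2)
  obtain ⟨κ, Cg, εg, hκ, hCg, hεg, hgrow⟩ := big_deriv hd horb hrep hρ₁ hvf hcontin hκo hεo hεoρ hord
  obtain ⟨Ca, εa, hCa, hεa, hlev⟩ := level_area hd horb hc₀ (r := 4) le_rfl
  obtain ⟨Cs, hCs, hsq⟩ := vol_sqrt
  have hpi := Real.pi_gt_three
  set q : ℝ := 2 / ((d : ℝ) - 1) with hq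
  set q' : ℝ := (d : ℝ) / ((d : ℝ) - 1) with hq'
  have hd1 : 0 < (d : ℝ) - 1 := by linarith
  have hqq : q' = 1 + q / 2 := by
    rw [hq', hq]
    field_simp
    ring
  have hq0 : 0 ≤ q := by positivity
  have hq'0 : 0 ≤ q' := by positivity
  set ε₁ : ℝ := min εg εa with hε₁
  have hε₁0 : 0 < ε₁ := by positivity
  have hlogd : 0 < Real.log d := Real.log_pos (by linarith)
  set K : ℝ := (Cg + Ca) * Real.log d + 2 with hK
  set C : ℝ := max (max K (Cs * √Ca / κ)) (max 1 (12 / ε₁ ^ q')) with hC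
  have hCK : K ≤ C := (le_max_left _ _).trans (le_max_left _ _)
  have hCκ : Cs * √Ca / κ ≤ C := (le_max_right _ _).trans (le_max_left _ _)
  have hC1 : 1 ≤ C := (le_max_left _ _).trans (le_max_right _ _)
  have hC12 : 12 / ε₁ ^ q' ≤ C := (le_max_right _ _).trans (le_max_right _ _)
  refine ⟨C, hC1, ?_⟩
  intro ψ hψ w hw hsm
  have hw2 : ‖w‖ ≤ 2 := by
    have h1 : Real.exp (-(C * (1 + |Real.log ‖ψ w - c₀‖|) ^ 2)) ≤ 1 :=
      Real.exp_le_one_iff.mpr (by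
        have : 0 ≤ C * (1 + |Real.log ‖ψ w - c₀‖|) ^ 2 := by positivity
        linarith)
    linarith
  have hcM : ψ w ∉ multibrotSet d := by
    have h1 : ψ w ∈ ψ '' {z | 1 < ‖z‖} := mem_image_of_mem ψ hw
    rw [hψ.image] at h1
    exact h1
  have hne : ψ w ≠ c₀ := fun h => hcM (by rw [h]; exact hc₀M)
  have he0 : 0 < ‖ψ w - c₀‖ := norm_pos_iff.mpr (sub_ne_zero.mpr hne)
  set e := ‖ψ w - c₀‖ with he
  have hg0 : 0 ≤ (‖w‖ - 1) * ‖deriv ψ w‖ := mul_nonneg (by linarith) (norm_nonneg _)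
  rcases le_or_gt e ε₁ with hce | hce
  · obtain ⟨n, hn1, hn2, hn3⟩ := hlev (ψ w) hne (hce.trans (min_le_right _ _))
    obtain ⟨i, hi1, hi2, hi3⟩ := hgrow (ψ w) hne (hce.trans (min_le_left _ _))
    obtain ⟨j, rfl⟩ : ∃ j, n = j + 1 := ⟨n - 1, by omega⟩
    rw [← he] at hn2 hn3 hi2 hi3
    set ℓ : ℝ := 1 + |Real.log e| with hℓ
    have hℓ1 : 1 ≤ ℓ := by rw [hℓ]; linarith [abs_nonneg (Real.log e)]
    have hℓ2 : ℓ ≤ ℓ ^ 2 := by nlinarith
    have hsmall : (2 * ‖w‖ - 1) ^ (d ^ (i + j)) ≤ 3 / 2 := by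
      set δ := ‖w‖ - 1 with hδ
      have hδ0 : 0 < δ := by rw [hδ]; linarith
      have h1 : 2 * ‖w‖ - 1 ≤ Real.exp (2 * δ) := by
        have := Real.add_one_le_exp (2 * δ)
        rw [hδ] at this ⊢
        linarith
      have h2 : (2 * ‖w‖ - 1) ^ (d ^ (i + j)) ≤ Real.exp (2 * (δ * (d : ℝ) ^ (i + j))) := by
        calc (2 * ‖w‖ - 1) ^ (d ^ (i + j)) ≤ Real.exp (2 * δ) ^ (d ^ (i + j)) :=
              pow_le_pow_left₀ (by linarith) h1 _
          _ = _ := by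
              rw [← Real.exp_nat_mul]
              push_cast
              ring_nf
      have h3 : (d : ℝ) ^ (i + j) = Real.exp (((i + j : ℕ) : ℝ) * Real.log d) := by
        rw [Real.exp_nat_mul, Real.exp_log (by linarith)]
      have h4 : (((i + j : ℕ) : ℝ)) ≤ (Cg + Ca) * ℓ ^ 2 := by
        push_cast at hn2 ⊢
        have h5 : (i : ℝ) ≤ Cg * ℓ ^ 2 := hi2.trans (by gcongr)
        linarith
      have h5 : δ * (d : ℝ) ^ (i + j) ≤ Real.exp (-2) := by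
        rw [h3]
        calc δ * Real.exp (((i + j : ℕ) : ℝ) * Real.log d)
            ≤ Real.exp (-(C * ℓ ^ 2)) * Real.exp ((Cg + Ca) * ℓ ^ 2 * Real.log d) := by
              gcongr
          _ = Real.exp (-(C * ℓ ^ 2) + (Cg + Ca) * ℓ ^ 2 * Real.log d) := (Real.exp_add _ _).symm
          _ ≤ Real.exp (-2) := by
              apply Real.exp_le_exp.mpr
              have h6 : K * ℓ ^ 2 ≤ C * ℓ ^ 2 := by gcongr
              have h7 : K * ℓ ^ 2 = (Cg + Ca) * ℓ ^ 2 * Real.log d + 2 * ℓ ^ 2 := by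
                rw [hK]; ring
              have h8 : (1 : ℝ) ≤ ℓ ^ 2 := hℓ1.trans hℓ2
              linarith
      refine h2.trans (le_trans (Real.exp_le_exp.mpr ?_) exp_small)
      linarith
    have h1 := ext_disc hd hψ hw i j hi1 hsmall
    have h2 := hsq (P d i (ψ w)) (SL d (ψ w) 4 (j + 1)) (Ca * e ^ q)
      (measurableSet_SL d (ψ w) 4 (j + 1)) (by positivity) hn3
    have h3 : (volume {u : ℂ | u ^ 2 + P d i (ψ w) ∈ SL d (ψ w) 4 (j + 1)}).toReal ≤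
        Cs * √(Ca * e ^ q) := by
      have h3 := ENNReal.toReal_mono ENNReal.ofReal_ne_top h2
      rwa [ENNReal.toReal_ofReal (by positivity)] at h3
    have h4 : √(Ca * e ^ q) = √Ca * e ^ (q / 2) := by
      rw [Real.sqrt_mul hCa, Real.sqrt_eq_rpow (e ^ q), ← Real.rpow_mul he0.le]
      congr 2
      ring
    have h5 : 2 / Real.pi ≤ 1 := by rw [div_le_one (by linarith)]; linarith
    set g := (‖w‖ - 1) * ‖deriv ψ w‖ with hg
    have h6 : g * ‖deriv (P d i) (ψ w)‖ ≤ Cs * (√Ca * e ^ (q / 2)) := by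
      refine h1.trans ?_
      rw [← h4]
      calc 2 / Real.pi * (volume {u : ℂ | u ^ 2 + P d i (ψ w) ∈ SL d (ψ w) 4 (j + 1)}).toReal
          ≤ 1 * (Cs * √(Ca * e ^ q)) := mul_le_mul h5 h3 ENNReal.toReal_nonneg (by norm_num)
        _ = _ := one_mul _
    have h7 : g * (κ / e) ≤ g * ‖deriv (P d i) (ψ w)‖ := mul_le_mul_of_nonneg_left hi3 hg0
    have h8 : g * κ / e ≤ Cs * (√Ca * e ^ (q / 2)) := by
      have : g * κ / e = g * (κ / e) := by ring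
      rw [this]
      linarith
    rw [div_le_iff₀ he0] at h8
    have h9 : e ^ (q / 2) * e = e ^ q' := by
      rw [hqq, add_comm, Real.rpow_add he0, Real.rpow_one]
    have h10 : g * κ ≤ Cs * √Ca * e ^ q' := by
      rw [← h9]
      linarith
    have h11 : g ≤ Cs * √Ca / κ * e ^ q' := by
      have : Cs * √Ca / κ * e ^ q' = Cs * √Ca * e ^ q' / κ := by ring
      rw [this, le_div_iff₀ hκ]
      exact h10
    refine h11.trans ?_
    gcongr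
  · have h1 := ext_cauchy hd hψ hw hw2
    refine h1.trans ?_
    rw [div_le_iff₀ (by positivity)] at hC12
    refine hC12.trans ?_
    gcongr

end Pool.Agent.H107.MLC
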