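import Mathlib
import Pool.Agent.H107.MLC.Near

/-!
# Parameter rays near a Misiurewicz parameter
-/

set_option autoImplicit false

open Set Filter Metric MeasureTheory

namespace Pool.Agent.H107.MLC

open Pool.Agent.H713R2 Pool.Agent.H712R2 Pool.Agent.H713R2.AR Pool.Agent.TH279.MD
open N62a1eb23 (multibrotSet)

/-- An elementary inequality. -/
theorem exp_ineq {a D : ℝ} (ha : 0 < a) (hD : 0 ≤ D) {t : ℝ} (ht : 96 * D / a ^ 4 ≤ t) (ht0 : 0 < t) :
    Real.exp (a * √t / 2) + D * t ≤ Real.exp (a * √t) := by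
  set x := a * √t with hx
  have hx0 : 0 < x := by positivity
  have hs : √t * √t = t := Real.mul_self_sqrt ht0.le
  have hxx : x ^ 2 = a ^ 2 * t := by rw [hx, mul_pow, Real.sq_sqrt ht0.le]
  have h1 : x ^ 3 / 48 ≤ Real.exp (x / 2) := by
    have h2 := Real.pow_div_factorial_le_exp (x / 2) (by positivity) 3
    have h3 : (x / 2) ^ 3 / (Nat.factorial 3 : ℝ) = x ^ 3 / 48 := by
      norm_num [Nat.factorial]
      ring
    linarith
  have h2 : x / 2 ≤ Real.exp (x / 2) - 1 := by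
    have := Real.add_one_le_exp (x / 2)
    linarith
  have h3 : Real.exp x = Real.exp (x / 2) * Real.exp (x / 2) := by
    rw [← Real.exp_add]
    ring_nf
  have h4 : x ^ 3 / 48 * (x / 2) ≤ Real.exp (x / 2) * (Real.exp (x / 2) - 1) := by
    apply mul_le_mul h1 h2 (by positivity) (Real.exp_pos _).le
  have h5 : D * t ≤ x ^ 3 / 48 * (x / 2) := by
    have h6 : x ^ 3 / 48 * (x / 2) = (a ^ 2 * t) * (a ^ 2 * t) / 96 := by
      rw [← hxx]; ring
    rw [h6]
    rw [div_le_iff₀ (by positivity)] at ht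
    have h7 : D * t * 96 ≤ t * a ^ 4 * t := by nlinarith
    have h8 : (a ^ 2 * t) * (a ^ 2 * t) / 96 = t * a ^ 4 * t / 96 := by ring
    rw [h8]
    linarith
  rw [h3]
  linarith

/-- The abstract ray argument: if `‖g'‖ ≤ C ‖g‖ ^ (1 + p)` as soon as
`C (1 + |log ‖g‖|) ^ 2 ≤ t`, then `‖g‖ ^ (-p)` is Lipschitz along the part of the ray where
`‖g‖` is not too small. -/
theorem ray_abs {C p : ℝ} (hC : 1 ≤ C) (hp0 : 0 < p) (hp1 : p ≤ 1) :
    ∃ C' : ℝ, 1 ≤ C' ∧ ∀ g g' : ℝ → ℂ, (∀ t, 0 < t → HasDerivAt g (g' t) t) → (∀ t, 0 < t → g t ≠ 0) →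
      (∀ t, 0 < t → ‖g t‖ ≤ 6) →
      (∀ t, 0 < t → C * (1 + |Real.log ‖g t‖|) ^ 2 ≤ t → ‖g' t‖ ≤ C * ‖g t‖ ^ (1 + p)) →
      ∀ t₁ t₂, C' ≤ t₁ → t₁ ≤ t₂ → Real.exp (-(√t₁ / C')) ≤ ‖g t₁‖ →
        |‖g t₂‖ ^ (-p) - ‖g t₁‖ ^ (-p)| ≤ C' * (t₂ - t₁) := by
  set D : ℝ := C + 1 with hD
  set a : ℝ := p / (2 * C) with ha
  have hC0 : 0 < C := by linarith
  have ha0 : 0 < a := by positivity
  set C' : ℝ := max (36 * C) (max (96 * D / a ^ 4) 1) with hC'
  have hC'1 : 36 * C ≤ C' := le_max_left _ _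
  have hC'2 : 96 * D / a ^ 4 ≤ C' := (le_max_left _ _).trans (le_max_right _ _)
  have hC'3 : 1 ≤ C' := (le_max_right _ _).trans (le_max_right _ _)
  refine ⟨C', hC'3, ?_⟩
  intro g g' hg hg0 hg6 hode t₁ t₂ ht₁ ht₁₂ hlow
  have ht₁0 : 0 < t₁ := by linarith
  set F : ℝ → ℝ := fun t => ‖g t‖ ^ (-p) with hF
  -- differentiability
  have hpos : ∀ t, 0 < t → 0 < ‖g t‖ := fun t ht => norm_pos_iff.mpr (hg0 t ht)
  have hFd : ∀ t, 0 < t → ∃ F', HasDerivAt F F' t ∧ |F'| ≤ p * (‖g t‖ ^ (-p - 1) * ‖g' t‖) := by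
    intro t ht
    have hgt := hpos t ht
    have h1 : HasDerivAt (fun t => ‖g t‖ ^ 2) (2 * inner ℝ (g t) (g' t)) t := (hg t ht).norm_sq
    have h2 := h1.rpow_const (p := -(p / 2)) (Or.inl (by positivity))
    have h3 : F = fun t => (‖g t‖ ^ 2) ^ (-(p / 2)) := by
      funext s
      rw [hF]
      simp only
      rw [← Real.rpow_natCast ‖g s‖ 2, ← Real.rpow_mul (norm_nonneg _)]
      congr 1
      push_cast
      ring
    rw [h3]
    refine ⟨_, h2, ?_⟩
    have h4 : (‖g t‖ ^ 2) ^ (-(p / 2) - 1) = ‖g t‖ ^ (-p - 2) := by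
      rw [← Real.rpow_natCast ‖g t‖ 2, ← Real.rpow_mul (norm_nonneg _)]
      congr 1
      push_cast
      ring
    have h5 : |inner ℝ (g t) (g' t)| ≤ ‖g t‖ * ‖g' t‖ := abs_real_inner_le_norm _ _
    rw [h4, abs_mul, abs_mul, abs_mul]
    have h6 : |(2 : ℝ)| = 2 := abs_of_pos (by norm_num)
    have h7 : |-(p / 2)| = p / 2 := by rw [abs_neg, abs_of_pos (by positivity)]
    have h8 : |‖g t‖ ^ (-p - 2)| = ‖g t‖ ^ (-p - 2) := abs_of_nonneg (by positivity)
    rw [h6, h7, h8]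
    have h9 : ‖g t‖ ^ (-p - 1) = ‖g t‖ ^ (-p - 2) * ‖g t‖ := by
      rw [← Real.rpow_add_one hgt.ne']
      congr 1
      ring
    rw [h9]
    have h10 : 0 ≤ ‖g t‖ ^ (-p - 2) := by positivity
    calc 2 * |inner ℝ (g t) (g' t)| * (p / 2) * ‖g t‖ ^ (-p - 2)
        = p * (‖g t‖ ^ (-p - 2) * |inner ℝ (g t) (g' t)|) := by ring
      _ ≤ p * (‖g t‖ ^ (-p - 2) * (‖g t‖ * ‖g' t‖)) := by gcongr
      _ = _ := by ring
  -- the derivative is bounded where `g` is not too small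
  have hbd : ∀ t, t₁ ≤ t → Real.exp (-(√t / (2 * C))) ≤ ‖g t‖ →
      p * (‖g t‖ ^ (-p - 1) * ‖g' t‖) ≤ C := by
    intro t ht hlo
    have ht0 : 0 < t := by linarith
    have hgt := hpos t ht0
    have hs0 : 0 ≤ √t := Real.sqrt_nonneg _
    have hlog : |Real.log ‖g t‖| ≤ √t / (2 * C) + 2 := by
      rw [abs_le]
      constructor
      · have h1 := Real.log_le_log (Real.exp_pos _) hlo
        rw [Real.log_exp] at h1
        linarith
      · have h1 := Real.log_le_log hgt (hg6 t ht0)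
        have h2 : Real.log 6 ≤ 2 := by
          rw [Real.log_le_iff_le_exp (by norm_num)]
          have h3 : (2.7 : ℝ) < Real.exp 1 := by
            have := Real.exp_one_gt_d9
            linarith
          have h4 : Real.exp 2 = Real.exp 1 * Real.exp 1 := by rw [← Real.exp_add]; norm_num
          rw [h4]
          nlinarith
        have : 0 ≤ √t / (2 * C) := by positivity
        linarith
    have h36 : 36 * C ≤ t := by linarith
    have hcond : C * (1 + |Real.log ‖g t‖|) ^ 2 ≤ t := by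
      have hs6 : 6 * C ≤ √t * √C := by
        have h1 : √(36 * C) ≤ √t := Real.sqrt_le_sqrt h36
        rw [Real.sqrt_mul (by norm_num), show (36 : ℝ) = 6 ^ 2 by norm_num,
          Real.sqrt_sq (by norm_num)] at h1
        have h2 : √C * √C = C := Real.mul_self_sqrt hC0.le
        have h3 := Real.sqrt_nonneg C
        nlinarith
      have h1 : C * (1 + |Real.log ‖g t‖|) ≤ √t * √C := by
        have h2 : 1 ≤ √C := by rw [Real.one_le_sqrt]; exact hC
        calc C * (1 + |Real.log ‖g t‖|) ≤ C * (1 + (√t / (2 * C) + 2)) := by gcongr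
          _ = 3 * C + √t / 2 := by field_simp; ring
          _ ≤ √t * √C / 2 + √t * √C / 2 := by
              have h3 : √t ≤ √t * √C := le_mul_of_one_le_right hs0 h2
              linarith
          _ = _ := by ring
      have h2 : (C * (1 + |Real.log ‖g t‖|)) ^ 2 ≤ (√t * √C) ^ 2 :=
        pow_le_pow_left₀ (by positivity) h1 2
      rw [mul_pow √t, Real.sq_sqrt ht0.le, Real.sq_sqrt hC0.le] at h2
      have h3 : (C * (1 + |Real.log ‖g t‖|)) ^ 2 = C * (C * (1 + |Real.log ‖g t‖|) ^ 2) := by ring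
      rw [h3] at h2
      exact le_of_mul_le_mul_left (by linarith) hC0
    have h1 := hode t ht0 hcond
    have h2 : ‖g t‖ ^ (-p - 1) * ‖g t‖ ^ (1 + p) = 1 := by
      rw [← Real.rpow_add hgt]
      have : -p - 1 + (1 + p) = 0 := by ring
      rw [this, Real.rpow_zero]
    calc p * (‖g t‖ ^ (-p - 1) * ‖g' t‖) ≤ p * (‖g t‖ ^ (-p - 1) * (C * ‖g t‖ ^ (1 + p))) := by
          gcongr
      _ = p * (C * (‖g t‖ ^ (-p - 1) * ‖g t‖ ^ (1 + p))) := by ring
      _ = p * C := by rw [h2, mul_one]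
      _ ≤ 1 * C := by gcongr
      _ = C := one_mul C
  -- the comparison function
  have hlowt : ∀ t, t₁ ≤ t → F t ≤ F t₁ + D * (t - t₁) → Real.exp (-(√t / (2 * C))) ≤ ‖g t‖ := by
    intro t ht hFt
    have ht0 : 0 < t := by linarith
    have hgt := hpos t ht0
    have h1 : F t₁ ≤ Real.exp (a * √t / 2) := by
      have h2 : ‖g t₁‖ ^ (-p) ≤ (Real.exp (-(√t₁ / C'))) ^ (-p) :=
        Real.rpow_le_rpow_of_nonpos (Real.exp_pos _) hlow (by linarith)
      refine h2.trans ?_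
      rw [← Real.exp_mul]
      apply Real.exp_le_exp.mpr
      have h3 : √t₁ ≤ √t := Real.sqrt_le_sqrt ht
      have h4 : -(√t₁ / C') * -p = p * √t₁ / C' := by ring
      rw [h4, ha]
      have h5 : p / (2 * C) * √t / 2 = p * √t / (4 * C) := by
        field_simp
        ring
      rw [h5]
      have h6 : 4 * C ≤ C' := by linarith
      gcongr
    have h2 := exp_ineq ha0 (D := D) (by positivity) (t := t) (by linarith) ht0
    have h3 : F t ≤ Real.exp (a * √t) := by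
      have : D * (t - t₁) ≤ D * t := by
        have : 0 < D := by positivity
        nlinarith
      linarith
    -- invert
    have h4 : Real.exp (a * √t) = (Real.exp (-(√t / (2 * C)))) ^ (-p) := by
      rw [← Real.exp_mul, ha]
      congr 1
      field_simp
    rw [h4] at h3
    by_contra hcon
    rw [not_le] at hcon
    have h5 := Real.rpow_lt_rpow_of_neg hgt hcon (by linarith : -p < 0)
    have h6 : F t = ‖g t‖ ^ (-p) := rfl
    rw [h6] at h3
    linarith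
  have hFc : ContinuousOn F (Icc t₁ t₂) := by
    intro t ht
    obtain ⟨F', h1, -⟩ := hFd t (by linarith [ht.1])
    exact h1.continuousAt.continuousWithinAt
  choose! dF hdF hdFb using hFd
  have hup : ∀ t ∈ Icc t₁ t₂, F t ≤ F t₁ + D * (t - t₁) := by
    apply image_le_of_deriv_right_lt_deriv_boundary' (f := F) (f' := dF)
      (B := fun t => F t₁ + D * (t - t₁)) (B' := fun _ => D) hFc
    · intro t ht
      exact (hdF t (by linarith [ht.1])).hasDerivWithinAt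
    · simp
    · fun_prop
    · intro t ht
      have h1 : HasDerivAt (fun t => F t₁ + D * (t - t₁)) (D * 1) t :=
        ((hasDerivAt_id t).sub_const t₁ |>.const_mul D).const_add (F t₁)
      rw [mul_one] at h1
      exact h1.hasDerivWithinAt
    · intro t ht heq
      have h1 := hlowt t ht.1 heq.le
      have h2 := hbd t ht.1 h1
      have h3 := hdFb t (by linarith [ht.1])
      have h4 := le_abs_self (dF t)
      linarith
  have h1 := Convex.norm_image_sub_le_of_norm_hasDerivWithin_le (f := F) (f' := dF) (C := C)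
    (s := Icc t₁ t₂) (x := t₁) (y := t₂) (fun t ht => (hdF t (by linarith [ht.1])).hasDerivWithinAt)
    (fun t ht => by
      rw [Real.norm_eq_abs]
      exact (hdFb t (by linarith [ht.1])).trans (hbd t ht.1 (hlowt t ht.1 (hup t ht))))
    (convex_Icc _ _) (left_mem_Icc.mpr ht₁₂) (right_mem_Icc.mpr ht₁₂)
  rw [Real.norm_eq_abs, Real.norm_eq_abs, abs_of_nonneg (by linarith : 0 ≤ t₂ - t₁)] at h1
  refine h1.trans ?_
  have : C ≤ C' := by linarith
  have : 0 ≤ t₂ - t₁ := by linarith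
  gcongr

/-- **Distance and rays near a Misiurewicz parameter.** -/
theorem all_near {d : ℕ} (hd : 2 ≤ d) {c₀ : ℂ}
    (hpp : ∃ m n : ℕ, 1 ≤ n ∧ (f d c₀)^[m + n] 0 = (f d c₀)^[m] 0)
    (hnp : ∀ p : ℕ, 1 ≤ p → (f d c₀)^[p] 0 ≠ 0) :
    ∃ C : ℝ, 1 ≤ C ∧ ∀ ψ : ℂ → ℂ, IsExteriorMap (multibrotSet d) ψ →
      (∀ w : ℂ, 1 < ‖w‖ →
        ‖w‖ - 1 ≤ Real.exp (-(C * (1 + |Real.log ‖ψ w - c₀‖|) ^ 2)) →
        (‖w‖ - 1) * ‖deriv ψ w‖ ≤ C * ‖ψ w - c₀‖ ^ ((d : ℝ) / ((d : ℝ) - 1)) ∧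
        infDist (ψ w) (multibrotSet d) ≤ C * ‖ψ w - c₀‖ ^ ((d : ℝ) / ((d : ℝ) - 1))) ∧
      (∀ ζ : ℂ, ‖ζ‖ = 1 → ∀ t₁ t₂ : ℝ, C ≤ t₁ → t₁ ≤ t₂ →
        Real.exp (-(√t₁ / C)) ≤ ‖ψ ((1 + Real.exp (-t₁) : ℝ) * ζ) - c₀‖ →
        |‖ψ ((1 + Real.exp (-t₂) : ℝ) * ζ) - c₀‖ ^ (-(1 / ((d : ℝ) - 1))) -
          ‖ψ ((1 + Real.exp (-t₁) : ℝ) * ζ) - c₀‖ ^ (-(1 / ((d : ℝ) - 1)))| ≤ C * (t₂ - t₁)) := by
  have hdR : (2 : ℝ) ≤ d := by exact_mod_cast hd
  obtain ⟨C₁, hC₁, H⟩ := main_near hd hpp hnp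
  have hc₀M : c₀ ∈ multibrotSet d := mem_M_of_preper hpp
  have hc₀ : ‖c₀‖ ≤ 2 := norm_le_two hd hc₀M
  have hd1 : 0 < (d : ℝ) - 1 := by linarith
  set p : ℝ := 1 / ((d : ℝ) - 1) with hp
  have hp0 : 0 < p := by positivity
  have hp1 : p ≤ 1 := by rw [hp, div_le_one hd1]; linarith
  have hq : (d : ℝ) / ((d : ℝ) - 1) = 1 + p := by
    rw [hp]
    field_simp
    ring
  obtain ⟨C₂, hC₂, HR⟩ := ray_abs hC₁ hp0 hp1
  refine ⟨4 * C₁ + C₂, by linarith, ?_⟩
  intro ψ hψ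
  have hC₁0 : 0 ≤ C₁ := by linarith
  refine ⟨?_, ?_⟩
  · intro w hw hsm
    have hsq : 0 ≤ (1 + |Real.log ‖ψ w - c₀‖|) ^ 2 := by positivity
    have h1 : ‖w‖ - 1 ≤ Real.exp (-(C₁ * (1 + |Real.log ‖ψ w - c₀‖|) ^ 2)) := by
      refine hsm.trans (Real.exp_le_exp.mpr (neg_le_neg ?_))
      have : C₁ ≤ 4 * C₁ + C₂ := by linarith
      gcongr
    have hw2 : ‖w‖ ≤ 2 := by
      have h2 : Real.exp (-(C₁ * (1 + |Real.log ‖ψ w - c₀‖|) ^ 2)) ≤ 1 :=
        Real.exp_le_one_iff.mpr (by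
          have : 0 ≤ C₁ * (1 + |Real.log ‖ψ w - c₀‖|) ^ 2 := by positivity
          linarith)
      linarith
    have h2 := H ψ hψ w hw h1
    have h3 := ext_dist hd hψ hw hw2
    have h4 : 0 ≤ ‖ψ w - c₀‖ ^ ((d : ℝ) / ((d : ℝ) - 1)) := by positivity
    constructor
    · refine h2.trans ?_
      have : C₁ ≤ 4 * C₁ + C₂ := by linarith
      gcongr
    · have h5 : 4 * ((‖w‖ - 1) * ‖deriv ψ w‖) ≤
          4 * C₁ * ‖ψ w - c₀‖ ^ ((d : ℝ) / ((d : ℝ) - 1)) := by linarith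
      have h6 : 0 ≤ C₂ * ‖ψ w - c₀‖ ^ ((d : ℝ) / ((d : ℝ) - 1)) := by positivity
      linarith
  · intro ζ hζ t₁ t₂ ht₁ ht₁₂ hlow
    set g : ℝ → ℂ := fun t => ψ ((1 + Real.exp (-t) : ℝ) * ζ) - c₀ with hg
    set g' : ℝ → ℂ := fun t => deriv ψ ((1 + Real.exp (-t) : ℝ) * ζ) * ((-Real.exp (-t) : ℝ) * ζ)
      with hg'
    have hnorm : ∀ t : ℝ, ‖((1 + Real.exp (-t) : ℝ) : ℂ) * ζ‖ = 1 + Real.exp (-t) := by
      intro t
      rw [norm_mul, hζ, mul_one, Complex.norm_real, Real.norm_eq_abs, abs_of_pos (by positivity)]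
    have hmem : ∀ t : ℝ, 1 < ‖((1 + Real.exp (-t) : ℝ) : ℂ) * ζ‖ := by
      intro t
      rw [hnorm]
      have := Real.exp_pos (-t)
      linarith
    have hder : ∀ t, 0 < t → HasDerivAt g (g' t) t := by
      intro t _
      have h1 : HasDerivAt ψ (deriv ψ ((1 + Real.exp (-t) : ℝ) * ζ))
          (((1 + Real.exp (-t) : ℝ) : ℂ) * ζ) :=
        (hψ.diff.differentiableAt (isOpen_ext.mem_nhds (hmem t))).hasDerivAt
      have h2 : HasDerivAt (fun t : ℝ => 1 + Real.exp (-t)) (-Real.exp (-t)) t := by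
        have := ((hasDerivAt_id t).neg.exp).const_add 1
        simpa using this
      have h3 : HasDerivAt (fun t : ℝ => ((1 + Real.exp (-t) : ℝ) : ℂ) * ζ)
          ((-Real.exp (-t) : ℝ) * ζ) t := h2.ofReal_comp.mul_const ζ
      exact (h1.comp t h3).sub_const c₀
    have hne : ∀ t, 0 < t → g t ≠ 0 := by
      intro t _ h0
      have h1 : ψ (((1 + Real.exp (-t) : ℝ) : ℂ) * ζ) ∈ ψ '' {z | 1 < ‖z‖} :=
        mem_image_of_mem ψ (hmem t)
      rw [hψ.image, sub_eq_zero.mp h0] at h1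
      exact h1 hc₀M
    have hle : ∀ t : ℝ, 0 < t → Real.exp (-t) ≤ 1 := fun t ht =>
      Real.exp_le_one_iff.mpr (by linarith)
    have h6 : ∀ t, 0 < t → ‖g t‖ ≤ 6 := by
      intro t ht
      have h1 := norm_psi_le hd hψ (hmem t)
      rw [hnorm] at h1
      have h2 := norm_sub_le (ψ ((1 + Real.exp (-t) : ℝ) * ζ)) c₀
      have h3 := hle t ht
      have h4 : ‖g t‖ ≤ ‖ψ ((1 + Real.exp (-t) : ℝ) * ζ)‖ + ‖c₀‖ := h2
      linarith
    have hng' : ∀ t, ‖g' t‖ = (‖((1 + Real.exp (-t) : ℝ) : ℂ) * ζ‖ - 1) *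
        ‖deriv ψ ((1 + Real.exp (-t) : ℝ) * ζ)‖ := by
      intro t
      rw [hg']
      simp only
      rw [norm_mul, norm_mul, hζ, mul_one, Complex.norm_real, Real.norm_eq_abs, abs_neg,
        abs_of_pos (Real.exp_pos _), hnorm]
      ring
    have hode : ∀ t, 0 < t → C₁ * (1 + |Real.log ‖g t‖|) ^ 2 ≤ t →
        ‖g' t‖ ≤ C₁ * ‖g t‖ ^ (1 + p) := by
      intro t ht hcond
      rw [hng', ← hq]
      apply H ψ hψ _ (hmem t)
      rw [hnorm, add_sub_cancel_left]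
      exact Real.exp_le_exp.mpr (neg_le_neg hcond)
    have h1 := HR g g' hder hne h6 hode t₁ t₂ (by linarith) ht₁₂ (by
      refine le_trans (Real.exp_le_exp.mpr (neg_le_neg ?_)) hlow
      have h2 : 0 < C₂ := by linarith
      have h3 : C₂ ≤ 4 * C₁ + C₂ := by linarith
      gcongr)
    refine h1.trans ?_
    have h2 : 0 ≤ t₂ - t₁ := by linarith
    have h3 : C₂ ≤ 4 * C₁ + C₂ := by linarith
    gcongr

end Pool.Agent.H107.MLC
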